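import Pool.Agent.E8helper20.CTK3.StmA

/-!
# Project CTK3, part A5: the criterion over the ring of integers

Adapted from `Pool.Agent.R419.KF.Crit`.
-/

set_option autoImplicit false
set_option linter.unusedVariables false
set_option linter.unusedSectionVars false

open scoped Classical

namespace Pool.Agent.E8helper71.CTK3

open NumberField IsDedekindDomain WeierstrassCurve WithZero
open Pool.Agent.Y692.QS (Ei w nr toC)
open Pool.Agent.Y715.T.RecG (Pq)
open Pool.Agent.Y703.CT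
open Pool.Agent.Y715.T.Rec (cs nn)
open Pool.Agent.E8helper20.CT3 (Ker3 KerV3)
open Pool.Agent.E8helper20.CTK3 (IsFact3 Lap3)

lemma w_sq_pow (c : ZMod 3) : ((w : Ei) ^ 2) ^ c.val = w ^ (-c).val := by
  revert c
  decide

variable {K : Type} [Field K] [NumberField K] (j : Ei ≃+* 𝓞 K)

lemma three_symm {x : 𝓞 K} (h : (3 : 𝓞 K) ∣ x - 1) : (3 : Ei) ∣ j.symm x - 1 := by
  have h1 : j.symm x - 1 = j.symm (x - 1) := by rw [map_sub, map_one]
  rw [h1, ← map_ofNat j.symm 3]
  exact map_dvd j.symm h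

lemma pq_symm' {x : 𝓞 K} (hp : Prime x) (h : (3 : 𝓞 K) ∣ x - 1) : Pq (j.symm x) :=
  ⟨(MulEquiv.prime_iff (j.symm : 𝓞 K ≃* Ei)).2 hp, three_symm j h⟩

/-- the factorization as data `Dt` -/
lemma fact_dt3 {ω D : 𝓞 K} {n : ℕ} {π : Fin n → 𝓞 K} {e : Fin n → ZMod 3}
    {χ : Fin n → Fin n → ZMod 3} {τ : Fin n → ZMod 3} (h : IsFact3 ω D n π e χ τ) :
    Dt (fun i => j.symm (π i)) e ∧ pD (fun i => j.symm (π i)) e = j.symm D := by
  obtain ⟨h1, h2, h3, h4⟩ := h
  refine ⟨⟨fun i => pq_symm' j (h1 i).1 (h1 i).2.1, fun i k hik hd => ?_, fun i => (h1 i).2.2⟩, ?_⟩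
  · exact (h3 i k hik).1 ((map_dvd_iff j.symm).1 hd)
  · unfold pD
    rw [h2, map_prod]
    simp only [map_pow]

/-- the kernels -/
lemma ker_iff3 (hj : ∀ z : Ei, Algebra.norm ℤ (j z) = nr z)
    {ω D : 𝓞 K} {n : ℕ} {π : Fin n → 𝓞 K} {e : Fin n → ZMod 3} {χ : Fin n → Fin n → ZMod 3}
    {τ : Fin n → ZMod 3} (hω : ω ^ 2 + ω + 1 = 0) (h : IsFact3 ω D n π e χ τ) :
    Ker3 (fun i => j.symm (π i)) e ↔ Lap3 e χ τ := by
  obtain ⟨h1, h2, h3, h6⟩ := h
  obtain ⟨ε, hε, hcs, hct⟩ : ∃ ε : ZMod 3, ε ≠ 0 ∧ (∀ i k, i ≠ k →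
      cs (j.symm (π k)) (j.symm (π i)) = ε * χ k i) ∧ ∀ k, cs (j.symm (π k)) 3 = ε * τ k := by
    have hnn : ∀ k, nn (j.symm (π k)) = ((Algebra.norm ℤ (π k)).natAbs - 1) / 3 := by
      intro k
      unfold nn
      rw [← hj, RingEquiv.apply_symm_apply]
    have hww : (w : Ei) ^ 2 + w + 1 = 0 := by decide
    have hfac : (ω - j w) * (ω - j (w ^ 2)) = 0 := by
      have e1 : (w : Ei) ^ 2 = -w - 1 := by linear_combination hww
      rw [e1, map_sub, map_neg, map_one]
      have e2 : (j w) ^ 2 + j w + 1 = 0 := by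
        rw [← map_pow, ← map_one j, ← map_add, ← map_add, hww, map_zero]
      linear_combination hω - e2
    rcases mul_eq_zero.1 hfac with h4 | h4
    · refine ⟨1, one_ne_zero, fun i k hik => ?_, fun k => ?_⟩
      · rw [one_mul]
        have hpq := pq_symm' j (h1 k).1 (h1 k).2.1
        apply Pool.Agent.Y715.T.RecG.cs_of hpq.prime hpq.norm
        have h5 := map_dvd j.symm (h3 i k hik).2
        rw [sub_eq_zero.1 h4, map_sub, map_pow, map_pow, RingEquiv.symm_apply_apply, ← hnn k] at h5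
        exact h5
      · rw [one_mul]
        have hpq := pq_symm' j (h1 k).1 (h1 k).2.1
        apply Pool.Agent.Y715.T.RecG.cs_of hpq.prime hpq.norm
        have h5 := map_dvd j.symm (h6 k)
        rw [sub_eq_zero.1 h4, map_sub, map_pow, map_pow, RingEquiv.symm_apply_apply, ← hnn k,
          map_ofNat] at h5
        exact h5
    · refine ⟨-1, by decide, fun i k hik => ?_, fun k => ?_⟩
      · rw [neg_one_mul]
        have hpq := pq_symm' j (h1 k).1 (h1 k).2.1
        apply Pool.Agent.Y715.T.RecG.cs_of hpq.prime hpq.norm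
        have h5 := map_dvd j.symm (h3 i k hik).2
        rw [sub_eq_zero.1 h4, map_sub, map_pow, map_pow, RingEquiv.symm_apply_apply, ← hnn k,
          w_sq_pow] at h5
        exact h5
      · rw [neg_one_mul]
        have hpq := pq_symm' j (h1 k).1 (h1 k).2.1
        apply Pool.Agent.Y715.T.RecG.cs_of hpq.prime hpq.norm
        have h5 := map_dvd j.symm (h6 k)
        rw [sub_eq_zero.1 h4, map_sub, map_pow, map_pow, RingEquiv.symm_apply_apply, ← hnn k,
          w_sq_pow, map_ofNat] at h5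
        exact h5
  have key : ∀ (v : Fin n → ZMod 3) (k : Fin n),
      ∑ i, e i * cs (j.symm (π k)) (j.symm (π i)) * (v i - v k) =
        ε * ∑ i, e i * χ k i * (v i - v k) := by
    intro v k
    rw [Finset.mul_sum]
    refine Finset.sum_congr rfl fun i _ => ?_
    by_cases hik : i = k
    · rw [hik, sub_self, mul_zero, mul_zero, mul_zero]
    · rw [hcs i k hik]
      ring
  unfold Ker3 KerV3 Lap3
  simp only [key, hct, mul_assoc ε]
  have hc : ∀ a b : ZMod 3, ε * a = ε * b ↔ a = b := fun a b => mul_right_inj' hε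
  simp only [hc]

/-- there is a factorization -/
lemma fact_ex3 (hj : ∀ z : Ei, Algebra.norm ℤ (j z) = nr z) {n : ℕ}
    {π : Fin n → Ei} {e : Fin n → ZMod 3} (hdt : Dt π e) :
    ∃ (ω : 𝓞 K) (χ : Fin n → Fin n → ZMod 3) (τ : Fin n → ZMod 3),
      ω ^ 2 + ω + 1 = 0 ∧ IsFact3 ω (j (pD π e)) n (fun i => j (π i)) e χ τ := by
  refine ⟨j w, fun k i => cs (π k) (π i), fun k => cs (π k) 3, ?_, fun i => ⟨?_, ?_, hdt.e0 i⟩,
    ?_, fun i k hik => ⟨fun hd => hdt.nd i k hik ((map_dvd_iff j).1 hd), ?_⟩, fun k => ?_⟩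
  · have hww : (w : Ei) ^ 2 + w + 1 = 0 := by decide
    rw [← map_pow, ← map_one j, ← map_add, ← map_add, hww, map_zero]
  · exact (MulEquiv.prime_iff (j : Ei ≃* 𝓞 K)).2 (hdt.pq i).prime
  · have h1 := map_dvd j (hdt.pq i).three
    rwa [map_sub, map_one, map_ofNat] at h1
  · unfold pD
    rw [map_prod]
    simp only [map_pow]
  · have h1 := map_dvd j (Pool.Agent.Y715.T.RecG.cs_spec (hdt.pq k).prime (hdt.pq k).norm
      (hdt.nd i k hik))
    rw [map_sub, map_pow, map_pow] at h1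
    rw [hj]
    exact h1
  · have h1 := map_dvd j (Pool.Agent.Y715.T.RecG.cs_spec (hdt.pq k).prime (hdt.pq k).norm
      (hdt.pq k).norm)
    rw [map_sub, map_pow, map_pow, map_ofNat] at h1
    rw [hj]
    exact h1

theorem t_FACT3 : Pool.Agent.E8helper20.CTK3.S_FACT3 := by
  intro K _ _ j hj
  refine ⟨fun n π e hdt => fact_ex3 j hj hdt, ?_⟩
  intro ω D n π e χ τ hω h
  obtain ⟨h1, h2⟩ := fact_dt3 j h
  exact ⟨h1, h2, ker_iff3 j hj hω h⟩

end Pool.Agent.E8helper71.CTK3
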