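import Pool.Agent.E8helper20.CTK3.StmA

/-!
# Project CTK3, part A2b: minimality at the prime above `3`

Adapted from `Pool.Agent.Y455.CTK.MIN`.
-/

set_option autoImplicit false
set_option linter.unusedSectionVars false
set_option linter.unusedVariables false

open scoped Classical

namespace Pool.Agent.E8helper71.CTK3

open WeierstrassCurve
open Pool.Agent.Y696.CTK (ED)

theorem ED_D {L : Type} [Field L] (δ : L) : (ED δ).Δ = -27 * δ ^ 4 := by
  unfold ED WeierstrassCurve.Δ WeierstrassCurve.b₂ WeierstrassCurve.b₄ WeierstrassCurve.b₆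
    WeierstrassCurve.b₈
  ring

theorem ED_c4 {L : Type} [Field L] (δ : L) : (ED δ).c₄ = 0 := by
  unfold ED WeierstrassCurve.c₄ WeierstrassCurve.b₂ WeierstrassCurve.b₄
  ring

theorem ED_c6 {L : Type} [Field L] (δ : L) : (ED δ).c₆ = -216 * δ ^ 2 := by
  unfold ED WeierstrassCurve.c₆ WeierstrassCurve.b₂ WeierstrassCurve.b₄ WeierstrassCurve.b₆
  ring

/-- the arithmetic of the invariants of an integral model -/
theorem no_int {R : Type} [CommRing R] [IsDomain R] {p a b u₁ b2 b4 b6 c6 : R} (hp : Prime p)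
    (ha : IsUnit a) (hb : IsUnit b) (h3 : (3 : R) = a * p ^ 2)
    (hc4 : b2 ^ 2 - 24 * b4 = 0) (hc6 : c6 = -b2 ^ 3 + 36 * b2 * b4 - 216 * b6)
    (h : c6 * (p * u₁) ^ 6 = -216 * (b * p ^ 2) ^ 2) : False := by
  have hp0 : p ≠ 0 := hp.ne_zero
  have h2 : ¬ p ∣ 2 := by
    rintro ⟨q, hq⟩
    apply hp.not_isUnit
    refine isUnit_of_dvd_one ⟨a * p - q, ?_⟩
    linear_combination h3 - hq
  have hna : ¬ p ∣ a := fun h5 => hp.not_isUnit (isUnit_of_dvd_unit h5 ha)
  have hnb : ¬ p ∣ b := fun h5 => hp.not_isUnit (isUnit_of_dvd_unit h5 hb)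
  -- the valuation of `c6`
  have e1 : c6 * u₁ ^ 6 = -(2 ^ 3 * a ^ 3 * b ^ 2) * p ^ 4 := by
    have e2 : p ^ 6 * (c6 * u₁ ^ 6) = p ^ 6 * (-(2 ^ 3 * a ^ 3 * b ^ 2) * p ^ 4) := by
      have e3 : (216 : R) = 2 ^ 3 * (a * p ^ 2) ^ 3 := by rw [← h3]; norm_num
      rw [e3] at h
      linear_combination h
    exact mul_left_cancel₀ (pow_ne_zero 6 hp0) e2
  have hnu : ¬ p ∣ u₁ := by
    rintro ⟨r, hr⟩
    have e2 : p ^ 4 * (c6 * p ^ 2 * r ^ 6) = p ^ 4 * (-(2 ^ 3 * a ^ 3 * b ^ 2)) := by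
      rw [hr] at e1
      linear_combination e1
    have e3 := mul_left_cancel₀ (pow_ne_zero 4 hp0) e2
    have e4 : p ∣ 2 ^ 3 * a ^ 3 * b ^ 2 := ⟨-(c6 * p * r ^ 6), by linear_combination e3⟩
    rcases hp.dvd_or_dvd e4 with h5 | h5
    · rcases hp.dvd_or_dvd h5 with h6 | h6
      · exact h2 (hp.dvd_of_dvd_pow h6)
      · exact hna (hp.dvd_of_dvd_pow h6)
    · exact hnb (hp.dvd_of_dvd_pow h5)
  have hc : p ^ 4 ∣ c6 := by
    have e2 : p ^ 4 ∣ c6 * u₁ ^ 6 := ⟨-(2 ^ 3 * a ^ 3 * b ^ 2), by linear_combination e1⟩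
    exact hp.pow_dvd_of_dvd_mul_right 4 (fun h5 => hnu (hp.dvd_of_dvd_pow h5)) e2
  obtain ⟨g, hg⟩ := hc
  have hng : ¬ p ∣ g := by
    rintro ⟨r, hr⟩
    have e2 : p ^ 4 * (p * r * u₁ ^ 6) = p ^ 4 * (-(2 ^ 3 * a ^ 3 * b ^ 2)) := by
      rw [hg, hr] at e1
      linear_combination e1
    have e3 := mul_left_cancel₀ (pow_ne_zero 4 hp0) e2
    have e4 : p ∣ 2 ^ 3 * a ^ 3 * b ^ 2 := ⟨-(r * u₁ ^ 6), by linear_combination e3⟩
    rcases hp.dvd_or_dvd e4 with h5 | h5
    · rcases hp.dvd_or_dvd h5 with h6 | h6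
      · exact h2 (hp.dvd_of_dvd_pow h6)
      · exact hna (hp.dvd_of_dvd_pow h6)
    · exact hnb (hp.dvd_of_dvd_pow h5)
  have hb2 : p ∣ b2 := by
    apply hp.dvd_of_dvd_pow (n := 2)
    refine ⟨8 * a * p * b4, ?_⟩
    have e3 : (24 : R) = 8 * (a * p ^ 2) := by rw [← h3]; norm_num
    rw [e3] at hc4
    linear_combination hc4
  obtain ⟨s, hs⟩ := hb2
  have e4 : 2 * c6 = b2 ^ 3 - 432 * b6 := by
    rw [hc6]
    linear_combination (-3 * b2) * hc4
  have e5 : (432 : R) = 16 * (a * p ^ 2) ^ 3 := by rw [← h3]; norm_num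
  have e6 : 2 * g * p = s ^ 3 - 16 * a ^ 3 * p ^ 3 * b6 := by
    have e7 : p ^ 3 * (2 * g * p) = p ^ 3 * (s ^ 3 - 16 * a ^ 3 * p ^ 3 * b6) := by
      rw [e5, hg, hs] at e4
      linear_combination e4
    exact mul_left_cancel₀ (pow_ne_zero 3 hp0) e7
  have hs2 : p ∣ s := by
    apply hp.dvd_of_dvd_pow (n := 3)
    exact ⟨2 * g + 16 * a ^ 3 * p ^ 2 * b6, by linear_combination -e6⟩
  obtain ⟨r, hr⟩ := hs2
  have e8 : p * (2 * g) = p * (p ^ 2 * r ^ 3 - 16 * a ^ 3 * p ^ 2 * b6) := by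
    rw [hr] at e6
    linear_combination e6
  have e9 := mul_left_cancel₀ hp0 e8
  have e10 : p ∣ 2 * g := ⟨p * r ^ 3 - 16 * a ^ 3 * p * b6, by linear_combination e9⟩
  rcases hp.dvd_or_dvd e10 with h5 | h5
  · exact h2 h5
  · exact hng h5

section min
open IsDiscreteValuationRing IsLocalRing IsDedekindDomain.HeightOneSpectrum
variable (R : Type) [CommRing R] [IsDomain R] [IsDiscreteValuationRing R] {L : Type}
  [Field L] [Algebra R L] [IsFractionRing R L]

theorem isInt_ED (d : R) : WeierstrassCurve.IsIntegral R (ED (algebraMap R L d)) := by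
  refine ⟨⟨⟨0, 0, d, 0, 0⟩, ?_⟩⟩
  unfold ED WeierstrassCurve.baseChange WeierstrassCurve.map
  simp

theorem isMin_ED (d : R) (h : ∀ (u : R) (b2 b4 b6 c6 : R), u ∈ IsLocalRing.maximalIdeal R →
    b2 ^ 2 - 24 * b4 = 0 → c6 = -b2 ^ 3 + 36 * b2 * b4 - 216 * b6 →
    c6 * u ^ 6 = -216 * d ^ 2 → u ≠ 0 → False) :
    WeierstrassCurve.IsMinimal R (ED (algebraMap R L d)) := by
  have hint := isInt_ED R (L := L) d
  refine ⟨⟨by
    change WeierstrassCurve.IsIntegral R
      ((1 : WeierstrassCurve.VariableChange L) • ED (algebraMap R L d))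
    rw [one_smul]
    exact hint, ?_⟩⟩
  intro C hC _
  have hC' : WeierstrassCurve.IsIntegral R (C • ED (algebraMap R L d)) := hC
  change WeierstrassCurve.valuation_Δ_aux R (C • ED (algebraMap R L d)) ≤
    WeierstrassCurve.valuation_Δ_aux R
      ((1 : WeierstrassCurve.VariableChange L) • ED (algebraMap R L d))
  rw [one_smul, ← Subtype.coe_le_coe, valuation_Δ_aux_eq_of_isIntegral,
    valuation_Δ_aux_eq_of_isIntegral, variableChange_Δ, ED_D, map_mul]
  have hu0 : ((C.u : Lˣ) : L) ≠ 0 := C.u.ne_zero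
  have huv : ((C.u⁻¹ : Lˣ) : L) * ((C.u : Lˣ) : L) = 1 := by simp
  have hle : valuation L (maximalIdeal R) ((C.u⁻¹ : Lˣ) : L) ≤ 1 := by
    by_contra hlt
    rw [not_le] at hlt
    have h1 : valuation L (maximalIdeal R) ((C.u : Lˣ) : L) < 1 := by
      have h2 := congrArg (valuation L (maximalIdeal R)) huv
      rw [map_mul, map_one] at h2
      by_contra h3
      rw [not_lt] at h3
      exact absurd h2 (one_lt_mul_of_lt_of_le hlt h3).ne'
    obtain ⟨u₀, hu₀⟩ := exists_lift_of_le_one (A := R) (K := L) h1.le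
    have hmem : u₀ ∈ IsLocalRing.maximalIdeal R := by
      rw [← hu₀] at h1
      exact (valuation_lt_one_iff_mem (K := L) (maximalIdeal R) u₀).1 h1
    obtain ⟨Wi, hWi⟩ := hC'.integral
    have hc4 : Wi.c₄ = 0 := by
      apply IsFractionRing.injective R L
      have e1 : algebraMap R L Wi.c₄ = (C • ED (algebraMap R L d)).c₄ := by
        rw [hWi]
        exact (WeierstrassCurve.map_c₄ Wi (algebraMap R L)).symm
      rw [e1, variableChange_c₄, ED_c4, mul_zero, map_zero]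
    have hc6 : Wi.c₆ * u₀ ^ 6 = -216 * d ^ 2 := by
      apply IsFractionRing.injective R L
      have e1 : algebraMap R L Wi.c₆ = (C • ED (algebraMap R L d)).c₆ := by
        rw [hWi]
        exact (WeierstrassCurve.map_c₆ Wi (algebraMap R L)).symm
      rw [map_mul, map_mul, map_neg, map_pow, map_pow, e1, variableChange_c₆, ED_c6, hu₀,
        map_ofNat]
      have h5 : ((C.u : Lˣ) : L) ^ 6 * (((C.u⁻¹ : Lˣ) : L)) ^ 6 = 1 := by
        rw [← mul_pow, mul_comm, huv, one_pow]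
      linear_combination (-216 * (algebraMap R L d) ^ 2) * h5
    refine h u₀ Wi.b₂ Wi.b₄ Wi.b₆ Wi.c₆ hmem ?_ ?_ hc6 ?_
    · rw [← hc4, WeierstrassCurve.c₄]
    · rw [WeierstrassCurve.c₆]
    · rintro rfl
      apply hu0
      rw [← hu₀, map_zero]
  calc valuation L (maximalIdeal R) (((C.u⁻¹ : Lˣ) : L) ^ 12) *
        valuation L (maximalIdeal R) (-27 * (algebraMap R L d) ^ 4)
      ≤ 1 * valuation L (maximalIdeal R) (-27 * (algebraMap R L d) ^ 4) := by
        rw [map_pow]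
        gcongr
        exact pow_le_one₀ zero_le hle
    _ = _ := one_mul _

end min

theorem minl : ∀ (R : Type) [CommRing R] [IsDomain R] [IsDiscreteValuationRing R] (L : Type)
    [Field L] [Algebra R L] [IsFractionRing R L] (p a b : R),
    IsLocalRing.maximalIdeal R = Ideal.span {p} → IsUnit a → IsUnit b → (3 : R) = a * p ^ 2 →
      WeierstrassCurve.IsMinimal R (ED (algebraMap R L (b * p ^ 2))) := by
  intro R _ _ _ L _ _ _ p a b hp ha hb h3
  apply isMin_ED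
  intro u b2 b4 b6 c6 hu h1 h2 h4 hu0
  have hpp : Prime p := by
    have hne : p ≠ 0 := by
      rintro rfl
      apply IsDiscreteValuationRing.not_a_field R
      rw [hp, Ideal.span_singleton_eq_bot]
    rw [← Ideal.span_singleton_prime hne, ← hp]
    exact (IsLocalRing.maximalIdeal.isMaximal R).isPrime
  rw [hp, Ideal.mem_span_singleton] at hu
  obtain ⟨u₁, rfl⟩ := hu
  exact no_int hpp ha hb h3 h1 h2 h4

theorem t_MINL : Pool.Agent.E8helper20.CTK3.S_MINL :=
  fun R _ _ _ L _ _ _ p a b => minl R L p a b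

end Pool.Agent.E8helper71.CTK3
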