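import Pool.Agent.E8helper20.CTK3.StmA
import Pool.Agent.Y350.CTK.Loc

/-!
# Project CTK3, part A2a: the index at the prime above `3`, type `IV*`

Adapted from `Pool.Agent.R419.KF.Tam` (`td`).
-/

set_option autoImplicit false
set_option linter.unusedSectionVars false
set_option linter.unusedVariables false

open scoped Classical

namespace Pool.Agent.E8helper71.CTK3

open WithZero WeierstrassCurve
open Pool.Agent.Y696 (NonsingRed)
open Pool.Agent.Y696.CTK (ED)
open Pool.Agent.Y350.CTK
open WeierstrassCurve.Affine (Point)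

section loc
variable {L : Type} [Field L] {v : Valuation L ℤᵐ⁰} {D : L}

/-- one of the two translates is far from the singular point -/
theorem trans_val2 {x y : L} (hd : v D = exp (-2 : ℤ)) (hx : x ≠ 0) (hxl : v x < 1)
    (he : y ^ 2 + D * y = x ^ 3) : 1 ≤ v (D * (y + D) / x ^ 2) ∨ 1 ≤ v (D * y / x ^ 2) := by
  have hD0 : D ≠ 0 := by
    rintro rfl
    rw [map_zero] at hd
    exact exp_ne_zero hd.symm
  have he' : y * (y + D) = x ^ 3 := by rw [← he]; ring
  have hx3 : x ^ 3 ≠ 0 := pow_ne_zero 3 hx
  have hy : y ≠ 0 := by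
    rintro rfl
    apply hx3
    rw [← he', zero_mul]
  have hyd : y + D ≠ 0 := by
    intro h
    apply hx3
    rw [← he', h, mul_zero]
  have hx2 : x ^ 2 ≠ 0 := pow_ne_zero 2 hx
  have nz : ∀ {z : L}, z ≠ 0 → v z ≠ 0 := fun h => (Valuation.ne_zero_iff v).2 h
  have g1 : ∀ {z : L}, z ≠ 0 → (1 ≤ v z ↔ 0 ≤ log (v z)) := by
    intro z hz
    rw [← log_one, log_le_log one_ne_zero (nz hz)]
  have vx : log (v x) < 0 := by
    rw [← log_one, log_lt_log (nz hx) one_ne_zero]
    exact hxl
  have vD : log (v D) = -2 := by rw [hd, log_exp]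
  have v1 : log (v y) + log (v (y + D)) = 3 * log (v x) := by
    rw [← log_mul (nz hy) (nz hyd), ← map_mul, he', map_pow, log_pow, nsmul_eq_mul]
    norm_num
  have v2 : log (v (D * (y + D) / x ^ 2)) = -2 + log (v (y + D)) - 2 * log (v x) := by
    rw [div_eq_mul_inv, map_mul, map_mul, map_inv₀, map_pow,
      log_mul (mul_ne_zero (nz hD0) (nz hyd)) (inv_ne_zero (pow_ne_zero 2 (nz hx))),
      log_mul (nz hD0) (nz hyd), log_inv, log_pow, vD, nsmul_eq_mul]
    push_cast
    ring
  have v3 : log (v (D * y / x ^ 2)) = -2 + log (v y) - 2 * log (v x) := by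
    rw [div_eq_mul_inv, map_mul, map_mul, map_inv₀, map_pow,
      log_mul (mul_ne_zero (nz hD0) (nz hy)) (inv_ne_zero (pow_ne_zero 2 (nz hx))),
      log_mul (nz hD0) (nz hy), log_inv, log_pow, vD, nsmul_eq_mul]
    push_cast
    ring
  have la : ∀ {a b : L}, a ≠ 0 → b ≠ 0 → a + b ≠ 0 →
      log (v (a + b)) ≤ log (v a) ∨ log (v (a + b)) ≤ log (v b) := by
    intro a b ha hb hab
    have h := v.map_add a b
    rcases le_max_iff.1 h with h1 | h1
    · exact Or.inl ((log_le_log (nz hab) (nz ha)).2 h1)
    · exact Or.inr ((log_le_log (nz hab) (nz hb)).2 h1)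
  have u1 := la hy hD0 hyd
  have u2 : log (v y) ≤ log (v (y + D)) ∨ log (v y) ≤ log (v D) := by
    have e : (y + D) + -D = y := by ring
    have h := la hyd (neg_ne_zero.2 hD0) (by rw [e]; exact hy)
    rwa [e, Valuation.map_neg] at h
  have u3 : log (v D) ≤ log (v (y + D)) ∨ log (v D) ≤ log (v y) := by
    have e : (y + D) + -y = D := by ring
    have h := la hyd (neg_ne_zero.2 hy) (by rw [e]; exact hD0)
    rwa [e, Valuation.map_neg] at h
  rw [g1 (div_ne_zero (mul_ne_zero hD0 hyd) hx2), g1 (div_ne_zero (mul_ne_zero hD0 hy) hx2),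
    v2, v3]
  rw [vD] at u1 u2 u3
  omega

/-- type `IV*` at the prime above `3` -/
theorem td3 (h3 : v 3 = exp (-2 : ℤ)) (hvD : v D = exp (-2 : ℤ))
    (H : AddSubgroup (ED D).toAffine.Point) (hH : ∀ P, P ∈ H ↔ NonsingRed v (ED D) P) :
    H.index = 3 := by
  have hD0 : D ≠ 0 := by
    rintro rfl
    rw [map_zero] at hvD
    exact exp_ne_zero hvD.symm
  have hD1 : v D < 1 := by
    rw [hvD]
    refine lt_one_iff.2 (exp_le_exp.2 ?_)
    omega
  have h31 : v (3 : L) < 1 := by
    rw [h3]
    refine lt_one_iff.2 (exp_le_exp.2 ?_)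
    omega
  have h2' : v (2 : L) = 1 := by
    have e : (2 : L) = -1 + 3 := by norm_num
    have h5 : v (3 : L) < v (-1 : L) := by rwa [Valuation.map_neg, map_one]
    rw [e, Valuation.map_add_eq_of_lt_left v h5, Valuation.map_neg, map_one]
  have hmem : ∀ {P : (ED D).toAffine.Point} {x y : L}, At P x y → (P ∉ H ↔ v x < 1) := by
    intro P x y h
    rw [not_mem_iff hH h]
    have he := h.eqn
    have he' : y * (y + D) = x ^ 3 := by rw [← he]; ring
    constructor
    · rintro ⟨h4, -⟩
      have hy : v y < 1 := by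
        have h5 : v (2 * y) < 1 := by
          have e : (2 * y : L) = (2 * y + D) - D := by ring
          rw [e]
          exact vsubl h4 hD1
        rwa [map_mul, h2', one_mul] at h5
      by_contra hc
      rw [not_lt] at hc
      have h6 : 1 ≤ v (x ^ 3) := by
        rw [map_pow]
        exact one_le_pow₀ hc
      rw [← he', map_mul] at h6
      exact absurd h6 (not_le.2 (m1l hy.le (vaddl hy hD1)))
    · intro hx
      have hy : v y < 1 := by
        by_contra hc
        rw [not_lt] at hc
        have h4 : v (D * y) < v (y ^ 2) := by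
          rw [map_mul, map_pow, sq]
          have h5 : v y ≠ 0 := fun h0 => by rw [h0] at hc; exact absurd hc (by simp)
          exact mul_lt_mul_of_pos_right (hD1.trans_le hc) (zero_lt_iff.2 h5)
        have h5 := Valuation.map_add_eq_of_lt_right v h4
        rw [add_comm, he, map_pow, map_pow] at h5
        have h6 : v x ^ 3 < 1 := pow_lt_one₀ zero_le hx (by norm_num)
        rw [h5] at h6
        exact absurd h6 (not_lt.2 (one_le_pow₀ hc))
      refine ⟨vaddl ?_ hD1, ?_⟩
      · rw [map_mul]
        exact m1l h2'.le hy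
      · rw [map_mul]
        refine m1l h31.le ?_
        rw [map_pow]
        exact pow_lt_one₀ zero_le hx (by norm_num)
  obtain ⟨T, hT⟩ := exists_T (D := D) hD0
  have hTn := hT.neg
  have hTT := T_add_T hD0 hT
  refine index_of_gen _ T 3 Nat.prime_three ?_ ?_ ?_
  · rw [hmem hT, map_zero]
    exact zero_lt_one
  · have : 3 • T = T + T + T := by abel
    rw [this, hTT, neg_add_cancel]
    exact zero_mem _
  · intro P
    by_cases hP : P ∈ H
    · exact ⟨0, by simpa using hP⟩
    obtain ⟨x, y, hA⟩ := not_mem_at hP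
    have hx := (hmem hA).1 hP
    by_cases hx0 : x = 0
    · subst hx0
      have e1 : y * (y + D) = 0 := by
        have := hA.eqn
        linear_combination this
      rcases mul_eq_zero.1 e1 with h | h
      · rw [h] at hA
        refine ⟨1, ?_⟩
        rw [one_zsmul, hA.ext hT, sub_self]
        exact zero_mem _
      · have h4 : y = -0 - D := by linear_combination h
        rw [h4] at hA
        refine ⟨-1, ?_⟩
        rw [neg_one_zsmul, hA.ext hTn, sub_self]
        exact zero_mem _
    · have hx2 : x ^ 2 ≠ 0 := pow_ne_zero 2 hx0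
      have he := hA.eqn
      rcases trans_val2 hvD hx0 hx he with h | h
      · refine ⟨1, ?_⟩
        rw [one_zsmul, sub_eq_add_neg]
        obtain ⟨y3, h3'⟩ := hA.add hTn hx0
        by_contra hc
        rw [hmem h3', ← not_le] at hc
        apply hc
        have e : ((y - (-0 - D)) / (x - 0)) ^ 2 - x - 0 = D * (y + D) / x ^ 2 := by
          rw [sub_zero, sub_zero, div_pow, eq_div_iff hx2, sub_mul, div_mul_cancel₀ _ hx2]
          linear_combination he
        rw [e]
        exact h
      · refine ⟨-1, ?_⟩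
        rw [neg_one_zsmul, sub_neg_eq_add]
        obtain ⟨y3, h3'⟩ := hA.add hT hx0
        by_contra hc
        rw [hmem h3', ← not_le] at hc
        apply hc
        have e : ((y - 0) / (x - 0)) ^ 2 - x - 0 = -(D * y / x ^ 2) := by
          rw [sub_zero, sub_zero, sub_zero, div_pow, ← neg_div, eq_div_iff hx2, sub_mul,
            div_mul_cancel₀ _ hx2]
          linear_combination he
        rw [e, Valuation.map_neg]
        exact h

end loc

theorem t_T3K3 : Pool.Agent.E8helper20.CTK3.S_T3K3 :=
  fun L _ v D h3 hD H hH => td3 h3 hD H hH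

end Pool.Agent.E8helper71.CTK3
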